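import Mathlib
import Pool.Agent.Y837.SW.Least

set_option autoImplicit false

/-!
# Least primes of record size in the residue classes of the values of squarefree forms

Let `p(q, b)` be the least prime in the class `b mod q`, and let
`f(q) = log q (log₂ q)² log₄ q / (log₃ q)²` (iterated natural logarithms).  The largest known lower bound for the
largest `p(q, b)`, `(b, q) = 1`, is `c φ(q) f(q)` for all `q` with few small prime factors (starting library).

Let `F_1, …, F_m` be integer polynomials in `n` variables which are squarefree (over `ℚ`), homogeneous of weights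
`D_j ≠ 0` for common integer weights of the variables, and pairwise not proportional, for example any finite set
of pairwise not proportional squarefree forms of arbitrary degrees: all the sums `∑_{i ∈ S} x_i` and all the
products `∏_{i ∈ S} x_i`, `S ≠ ∅`, together with norm forms, `x³ + y³ + z³`, and so on.

For every `ε > 0` and every large `q` all of whose prime factors exceed `q ^ ε` (for example every large prime `q`)
there are positive integers `x_1, …, x_n ≤ q ^ ε` such that ALL the classes `F_j(x) mod q` are reduced classes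
whose least prime exceeds `c q f(q)`.

Method: the covering sieve in several variables of `Y837/SV`, `Y837/SW` for the values of `F_j(x) / q` modulo the
primes up to `q ^ (ε')`, uniformly in `q`; Weil's bound for `∑ χ(g(z))`, `g` not a constant times a power.
-/

namespace Pool.Agent.Results.MP_5b0a7e_nt.ClassesOfFormValues

open MvPolynomial

/-- `f Z = log Z (log₂ Z)² log₄ Z / (log₃ Z)²`. -/
noncomputable def f (Z : ℝ) : ℝ :=
  Real.log Z * (Real.log (Real.log Z)) ^ 2 * Real.log (Real.log (Real.log (Real.log Z))) /
    (Real.log (Real.log (Real.log Z))) ^ 2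

/-- `F` is homogeneous of weight `D` if the variable `x_i` has weight `w i`. -/
def Weight {n : ℕ} (w : Fin n → ℤ) (D : ℤ) (F : MvPolynomial (Fin n) ℤ) : Prop :=
  ∀ e ∈ F.support, ∑ i, w i * (e i : ℤ) = D

/-- **Least primes of record size in the residue classes of the values of squarefree forms.** -/
theorem result {m n : ℕ} (F : Fin m → MvPolynomial (Fin n) ℤ) (w : Fin n → ℤ) (D : Fin m → ℤ)
    (hD : ∀ j, D j ≠ 0) (hw : ∀ j, Weight w (D j) (F j))
    (hF : ∀ j, Squarefree (map (algebraMap ℤ ℚ) (F j)))
    (hne : ∀ i j, i ≠ j → ∀ a b : ℤ, a ≠ 0 → C a * F i ≠ C b * F j) (ε : ℝ) (hε : 0 < ε) :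
    ∃ c : ℝ, 0 < c ∧ ∃ q₀ : ℕ, ∀ q : ℕ, q₀ ≤ q → (∀ l : ℕ, l.Prime → l ∣ q → (q : ℝ) ^ ε < l) →
      ∃ x : Fin n → ℤ, (∀ i, 0 < x i ∧ (x i : ℝ) ≤ (q : ℝ) ^ ε) ∧ ∀ j,
        IsCoprime (eval x (F j)) (q : ℤ) ∧
        ∀ p : ℕ, p.Prime → (q : ℤ) ∣ (p : ℤ) - eval x (F j) → c * (q * f q) < p :=
  Pool.Agent.Y837.SW.least_main n F w D hD hw hF hne ε hε

end Pool.Agent.Results.MP_5b0a7e_nt.ClassesOfFormValues
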