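import Pool.Agent.Y882.MQ.Main

/-!
# Almost primes in all small residue classes, for all but few moduli

For a fixed class `a`, Bombieri, Friedlander and Iwaniec show that the least prime `≡ a (mod q)` is
less than `q ^ 2 / (log q) ^ k` for almost all moduli `q`.  Here: numbers with at most three prime
factors below `q ^ (1 + θ)`, for every `θ > 0`, in all classes `|a| ≤ q ^ c`, `c < θ`, at the same
time, for all moduli `q ≤ X` with at most `X ^ (1 - θ + c + ε)` exceptions.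
-/

set_option autoImplicit false

open Finset Filter

namespace Pool.Agent.Results.MP_5b0a7e_nt.FixedClassFewModuli

/-- the variable part of the singular series -/
noncomputable def sing (n : ℕ) : ℝ :=
  ∏ p ∈ n.primeFactors.erase 2, (((p : ℝ) - 1) / ((p : ℝ) - 2))

open Classical in
/-- The number of the `k` with `q ^ θ / 4 < k < q ^ θ` such that `k` is a prime (if `a q` is even)
or twice a prime (if `a q` is odd) and `k q + a` has at most `r` prime factors (counted with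
multiplicity), all of them at least `q ^ ζ / 2`. -/
noncomputable def almostPrimes (r : ℕ) (θ ζ : ℝ) (a : ℤ) (q : ℕ) : ℕ :=
  ((range (q + 1)).filter (fun k : ℕ =>
    ((Even (a.natAbs * q) ∧ k.Prime) ∨
      (¬ Even (a.natAbs * q) ∧ ∃ p : ℕ, p.Prime ∧ k = 2 * p)) ∧
    (q : ℝ) ^ θ / 4 < k ∧ (k : ℝ) < (q : ℝ) ^ θ ∧
    ((k : ℤ) * q + a).natAbs.primeFactorsList.length ≤ r ∧
    ∀ l : ℕ, l.Prime → l ∣ ((k : ℤ) * q + a).natAbs → (q : ℝ) ^ ζ / 2 ≤ l)).card

open Classical in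
/-- **Almost primes in all small classes.** Let `0 < θ ≤ 1`, `1 / 2 ≤ τ < 1` and
`25 (1 + θ) < (24 r - 3) τ` (for instance `r = 3`, `τ = 1 / 2`, `θ < 0.38`).  For all `q ≤ X` with
at most `C X ^ (2 τ - θ + c + ε)` exceptions, all classes `a ≠ 0` prime to `q` with `|a| ≤ q ^ c`
contain at least `δ sing (a q) q ^ θ / (log q) ^ 2` numbers `k q + a`, `k < q ^ θ`, with at most `r`
prime factors, all of them at least `q ^ (τ / 4) / 2`. -/
theorem result (r : ℕ) (θ τ c ε : ℝ) (hr : 25 * (1 + θ) < (24 * r - 3) * τ) (hτ2 : 1 / 2 ≤ τ)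
    (hτ : τ < 1) (hθ0 : 0 < θ) (hθ1 : θ ≤ 1) (hc0 : 0 ≤ c) (hc1 : c < 1) (hε : 0 < ε) :
    ∃ δ C : ℝ, 0 < δ ∧ 0 < C ∧ ∀ X : ℕ, 1 ≤ X →
      (((Icc 1 X).filter (fun q : ℕ => ∃ a : ℤ, a ≠ 0 ∧ (a.natAbs : ℝ) ≤ (q : ℝ) ^ c ∧
        a.natAbs.Coprime q ∧ (almostPrimes r θ (τ / 4) a q : ℝ) <
          δ * sing (a.natAbs * q) * ((q : ℝ) ^ θ / Real.log q ^ 2))).card : ℝ) ≤
      C * (X : ℝ) ^ (2 * τ - θ + c + ε) :=
  Pool.Agent.Y882.MQ.fixedClass r θ τ c ε hr hτ2 hτ hθ0 hθ1 hc0 hc1 hε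

end Pool.Agent.Results.MP_5b0a7e_nt.FixedClassFewModuli
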