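import Pool.Agent.Y816.PD.UniB

set_option autoImplicit false

/-!
# Almost primes `a j + s` with `j` an almost prime with restricted digits, in all progressions, up to `a ^ (1 + 1 / D)`

For every large modulus `a`, every `s ≤ a ^ D` coprime to `a` with `a s` even, the numbers `j` and `a j + s`,
`j < b ^ K ≤ a ^ (1 / D)`, are considered, where the `i`-th digit of `j` in base `b` belongs to an arbitrary set
`A i` for all `i < K`; `K` is the integer part of `log a / (D log b)`.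
-/

namespace Pool.Agent.Results.MP_5b0a7e_nt.RestrictedDigits

open Finset Filter Polynomial
open Pool.Agent.Y816.PD (NA ND Alm WG)

/-- `j (a j + s)` -/
def G (a s j : ℕ) : ℤ := (j : ℤ) * (a * j + s)

lemma G_eq (a s j : ℕ) : G a s j = ((j * (a * j + s) : ℕ) : ℤ) := by
  unfold G
  push_cast
  ring

/-- **Almost primes `j` and `a j + s` with restricted digits of `j`, for all `a` and `s`.** -/
theorem result (D : ℕ) (hD : 1 ≤ D) :
    ∃ c : ℝ, 0 < c ∧ ∃ r₀ : ℕ, 2 ≤ r₀ ∧ ∀ r : ℕ, r₀ ≤ r → ∀ b : ℕ, 2 ≤ b → ∃ κ C : ℝ, 0 < κ ∧ 0 < C ∧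
      ∀ᶠ a : ℕ in atTop, ∀ s : ℕ, s.Coprime a → Even (a * s) → s ≤ a ^ D → ∀ K : ℕ, K = Nat.log (b ^ D) a →
        ∀ A : ℕ → Finset ℕ, (∀ i < K, A i ⊆ range b) → (b : ℝ) ^ K ≤ Real.exp (c * K) * NA K A →
        ((∃ d ∈ A 0, (d * (a * d + s)).Coprime b) → (∃ d ∈ A (K - 1), d ≠ 0) →
          κ * NA K A * WG (G a s) (b ^ K) ≤ ND b K A {j | (1 < j ∧ j ^ D < a) ∧ j ∈ Alm (G a s) r (b ^ K)}) ∧
        (ND b K A {j | j.Prime ∧ (a * j + s).Prime} : ℝ) ≤ C * NA K A * WG (G a s) (b ^ K) := by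
  obtain ⟨c, hc, r₀, hr₀, h⟩ := Pool.Agent.Y816.PD.uni_top 2 (2 * D * D + 3) (by norm_num)
  refine ⟨c, hc, r₀, hr₀, fun r hr b hb => ?_⟩
  have h2r : 2 ≤ r := hr₀.trans hr
  obtain ⟨κ, C₁, hκ, hC, h1⟩ := h r hr b hb
  refine ⟨κ, C₁, hκ, hC, ?_⟩
  obtain ⟨K0, hK0⟩ := eventually_atTop.1 h1
  have hb0 : 0 < b := by omega
  have hbD : 1 < b ^ D := Nat.one_lt_pow (by omega) (by omega)
  filter_upwards [eventually_ge_atTop ((b ^ D) ^ (K0 + 3))] with a ha s hcop heven hsD K hK A hA hprod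
  have ha1 : 1 ≤ a := le_trans (Nat.one_le_pow _ _ (by positivity)) ha
  have hKK : K0 + 3 ≤ K := by
    rw [hK]
    exact Nat.le_log_of_pow_le hbD ha
  have hb1 : (b ^ D) ^ K ≤ a := by
    rw [hK]
    exact Nat.pow_log_le_self _ (by omega)
  have hb2 : a < (b ^ D) ^ (K + 1) := by
    rw [hK]
    exact Nat.lt_pow_succ_log_self hbD _
  have e1 : a ≤ b ^ (2 * D * K) := by
    calc a ≤ (b ^ D) ^ (K + 1) := hb2.le
      _ = b ^ (D * (K + 1)) := (pow_mul b D (K + 1)).symm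
      _ ≤ b ^ (2 * D * K) := Nat.pow_le_pow_right hb0 (by nlinarith)
  have e2 : a ≤ b ^ (2 * D * D * K) :=
    e1.trans (Nat.pow_le_pow_right hb0 (by nlinarith [Nat.mul_le_mul_left (2 * D * K) hD]))
  have e3 : s ≤ b ^ (2 * D * D * K) := by
    calc s ≤ a ^ D := hsD
      _ ≤ (b ^ (2 * D * K)) ^ D := Nat.pow_le_pow_left e1 D
      _ = b ^ (2 * D * D * K) := by rw [← pow_mul]; congr 1; ring
  have hpoly : ∃ P : ℤ[X], P.natDegree ≤ 2 ∧ ∀ k : ℕ, P.eval (k : ℤ) = G a s k := by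
    refine ⟨X * (C (a : ℤ) * X + C (s : ℤ)), ?_, fun k => ?_⟩
    · compute_degree
    · unfold G
      simp only [eval_mul, eval_add, eval_X, eval_C]
  have hadm : ∀ p : ℕ, p.Prime → ∃ k : ℕ, ¬ (p : ℤ) ∣ G a s k := by
    intro p hp
    by_cases hp2 : p = 2
    · subst hp2
      refine ⟨1, fun hd => ?_⟩
      rw [G_eq, Int.natCast_dvd_natCast, one_mul, mul_one] at hd
      rcases Nat.even_mul.1 heven with h2 | h2
      · have h3 : 2 ∣ s := (Nat.dvd_add_right h2.two_dvd).1 hd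
        have h4 := Nat.dvd_gcd h3 h2.two_dvd
        rw [hcop] at h4
        omega
      · have h3 : 2 ∣ a := (Nat.dvd_add_left h2.two_dvd).1 hd
        have h4 := Nat.dvd_gcd h2.two_dvd h3
        rw [hcop] at h4
        omega
    · have hp3 : 3 ≤ p := by
        have := hp.two_le
        omega
      by_contra hcon
      push Not at hcon
      have g1 := hcon 1
      have g2 := hcon 2
      rw [G_eq, Int.natCast_dvd_natCast] at g1 g2
      rw [one_mul, mul_one] at g1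
      have g3 : p ∣ a * 2 + s := by
        rcases (Nat.Prime.dvd_mul hp).1 g2 with h4 | h4
        · have := Nat.le_of_dvd (by norm_num) h4
          omega
        · exact h4
      have g4 : a * 2 + s = a + (a + s) := by ring
      rw [g4] at g3
      have g5 : p ∣ a := (Nat.dvd_add_left g1).1 g3
      have g6 : p ∣ s := (Nat.dvd_add_right g5).1 g1
      have g7 := Nat.dvd_gcd g6 g5
      rw [hcop] at g7
      exact hp.one_lt.ne' (Nat.dvd_one.1 g7)
  have hsize : ∀ k : ℕ, k < b ^ K → (G a s k).natAbs ≤ b ^ ((2 * D * D + 3) * K) := by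
    intro k hk
    rw [G_eq, Int.natAbs_natCast]
    have e5 : 2 ≤ b ^ K := hb.trans (Nat.le_self_pow (by omega) b)
    have e4 : a * k + s ≤ b ^ K * (b ^ (2 * D * D * K) * b ^ K) := by
      calc a * k + s ≤ b ^ (2 * D * D * K) * b ^ K + b ^ (2 * D * D * K) * b ^ K :=
            Nat.add_le_add (Nat.mul_le_mul e2 hk.le) (e3.trans (Nat.le_mul_of_pos_right _ (by positivity)))
        _ = 2 * (b ^ (2 * D * D * K) * b ^ K) := by ring
        _ ≤ _ := Nat.mul_le_mul_right _ e5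
    calc k * (a * k + s) ≤ b ^ K * (b ^ K * (b ^ (2 * D * D * K) * b ^ K)) := Nat.mul_le_mul hk.le e4
      _ = b ^ ((2 * D * D + 3) * K) := by
          rw [← pow_add, ← pow_add, ← pow_add]
          congr 1
          ring
  obtain ⟨h2, h3⟩ := hK0 K (by omega) (G a s) hpoly hadm hsize A hA hprod
  have hbig : 1 < b ^ (K - 1) := Nat.one_lt_pow (by omega) (by omega)
  constructor
  · rintro ⟨d, hd, hdc⟩ htop
    refine (h2 ⟨d, hd, by rw [G_eq, Int.natAbs_natCast]; exact hdc⟩ htop).trans (Nat.cast_le.2 ?_)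
    apply Pool.Agent.Y816.PD.ND_mono'
    intro j hj hjS
    refine ⟨⟨lt_of_lt_of_le hbig hjS.1, ?_⟩, hjS.2⟩
    calc j ^ D < (b ^ K) ^ D := Nat.pow_lt_pow_left hj (by omega)
      _ = (b ^ D) ^ K := by rw [← pow_mul, ← pow_mul, mul_comm]
      _ ≤ a := hb1
  · refine le_trans (Nat.cast_le.2 ?_) h3
    apply Pool.Agent.Y816.PD.ND_mono'
    rintro j hj ⟨g1, g2⟩ p hp hd
    rw [G_eq, Int.natCast_dvd_natCast] at hd
    refine Pool.Agent.Y816.PD.lt_pow_of_le hp ?_ h2r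
    rcases (Nat.Prime.dvd_mul hp).1 hd with h4 | h4
    · exact ((Nat.prime_dvd_prime_iff_eq hp g1).1 h4).ge
    · rw [(Nat.prime_dvd_prime_iff_eq hp g2).1 h4]
      nlinarith

end Pool.Agent.Results.MP_5b0a7e_nt.RestrictedDigits
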