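import Pool.Agent.Y677.KU.LinNarrow

set_option autoImplicit false

/-!
# Numbers with at most three prime factors in all residue classes, in narrow progressions

For every modulus `a` and every reduced class `b` modulo `a` (uniformly): numbers `n ≡ b (mod a)` with at
most `r` prime factors, all of them larger than `n ^ (1 / (3 r + 1))`, in all intervals `(x, x + y]` with
`a x ^ θ ≤ y ≤ x`, `θ > 4 / (3 r + 1)`, in the right number and in `l`-term arithmetic progressions with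
difference at most `a (log x) ^ B`.
-/

namespace Pool.Agent.Results.MP_5b0a7e_nt.ThreePrimeFactors

open Finset Filter
open Pool.Agent.TH977.PW (N)
open Pool.Agent.Y677.RSZ (InProg Outside)

/-- The `n ≡ b (mod a)` all of whose prime factors are larger than `n ^ (1 / s)`. -/
def R (a b s : ℕ) : Set ℕ :=
  {n | n ≡ b [MOD a] ∧ ∀ p : ℕ, p.Prime → p ∣ n → (n : ℝ) ^ (1 / (s : ℝ)) < (p : ℝ)}

/-- The `n ≡ b (mod a)` with at most `r` prime factors, all larger than `n ^ (1 / (3 r + 1))`. -/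
def P (a b r : ℕ) : Set ℕ := {n | n ∈ R a b (3 * r + 1) ∧ n.primeFactorsList.length ≤ r}

/-- **Numbers with few prime factors in all residue classes, in narrow progressions.** -/
theorem result :
    (∀ (r : ℕ) (θ : ℝ), 2 ≤ r → 4 / (3 * r + 1) < θ → θ ≤ 1 →
      (∃ κ : ℝ, 0 < κ ∧ ∀ᶠ x : ℕ in atTop, ∀ a b y : ℕ, 1 ≤ a → Nat.Coprime b a →
        (a : ℝ) * (x : ℝ) ^ θ ≤ y → y ≤ x →
        κ * y / (Nat.totient a * Real.log x) ≤ N (P a b r) x (x + y)) ∧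
      ∀ l : ℕ, ∃ B : ℕ, ∀ᶠ x : ℕ in atTop, ∀ a b y : ℕ, 1 ≤ a → Nat.Coprime b a →
        (a : ℝ) * (x : ℝ) ^ θ ≤ y → y ≤ x →
        ∃ u d : ℕ, 1 ≤ d ∧ (d : ℝ) ≤ a * Real.log x ^ B ∧
          ∀ i < l, u + i * d ∈ P a b r ∧ x < u + i * d ∧ u + i * d ≤ x + y) ∧
    (∀ (s : ℕ) (θ : ℝ), 1 ≤ s → 0 < θ → ∀ l : ℕ, 2 ≤ l → ∀ ε : ℝ, 0 < ε → ∃ B : ℕ,
      ∀ᶠ x : ℕ in atTop, ∀ a b y : ℕ, 1 ≤ a → Nat.Coprime b a →
      (a : ℝ) * (x : ℝ) ^ θ ≤ y → y ≤ x → ∀ A : Set ℕ, A ⊆ R a b s →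
        (N (Outside A l (a * Real.log x ^ B) x (x + y)) x (x + y) : ℝ) ≤
          ε * y / (Nat.totient a * Real.log x)) ∧
    ∀ ε : ℝ, 0 < ε → ∀ l : ℕ, ∃ B : ℕ, ∀ᶠ a : ℕ in atTop, ∀ b : ℕ, Nat.Coprime b a →
      ∃ u d : ℕ, 1 ≤ d ∧ (d : ℝ) ≤ a * Real.log a ^ B ∧ ∀ i < l, u + i * d ∈ P a b 3 ∧
        a < u + i * d ∧ ((u + i * d : ℕ) : ℝ) ≤ (a : ℝ) ^ (5 / 3 + ε) := by
  have hA : ∀ (r : ℕ) (θ : ℝ), 2 ≤ r → 4 / (3 * r + 1) < θ → 4 < θ * (3 * r + 1) ∧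
      1 < θ * r - (r - 1) / ((3 * r + 1 : ℕ) : ℝ) ∧ 2 < θ * ((3 * r + 1 : ℕ) : ℝ) ∧ 0 < θ := by
    intro r θ hr h1
    have hr2 : (2 : ℝ) ≤ r := by exact_mod_cast hr
    have hθ : 0 < θ := lt_trans (by positivity) h1
    have h4 : 4 < θ * (3 * r + 1) := by
      rw [div_lt_iff₀ (by positivity)] at h1
      exact h1
    refine ⟨h4, ?_, ?_, hθ⟩
    · push_cast
      have h6 : ((r : ℝ) - 1) / (3 * r + 1) = r * (4 / (3 * r + 1)) - 1 := by
        field_simp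
        ring
      rw [h6]
      nlinarith
    · push_cast
      linarith
  refine ⟨fun r θ hr h1 h2 => ?_, fun s θ hs hθ l hl ε hε => ?_, fun ε hε l => ?_⟩
  · obtain ⟨h4, h5, h6, hθ⟩ := hA r θ hr h1
    refine ⟨?_, fun l => ?_⟩
    · obtain ⟨κ, hκ, h⟩ := Pool.Agent.Y677.KU.lin_lower r (3 * r + 1) θ hθ h2 h4 h5 h6
      refine ⟨κ, hκ, ?_⟩
      filter_upwards [h] with x hx a b y ha hb hy hyx
      refine (hx a b y ha hb hy hyx).trans (Nat.cast_le.2 ?_)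
      exact Pool.Agent.TH977.PW.N_mono _ _ _ _ fun n _ _ hn => ⟨⟨hn.1, hn.2.1⟩, hn.2.2⟩
    · obtain ⟨B, hB⟩ := Pool.Agent.Y677.KU.lin_exists r (3 * r + 1) (by omega) θ hθ h2 h4 h5 h6 l
      refine ⟨B, ?_⟩
      filter_upwards [hB] with x hx a b y ha hb hy hyx
      obtain ⟨u, d, h7, h8, h9⟩ := hx a b y ha hb hy hyx
      refine ⟨u, d, h7, h8, fun i hi => ?_⟩
      obtain ⟨h10, h11⟩ := h9 i hi
      exact ⟨⟨⟨h10.1, h10.2.1⟩, h10.2.2⟩, h11⟩
  · obtain ⟨B, hB⟩ := Pool.Agent.Y677.KU.lin_hered s hs θ hθ l hl ε hε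
    refine ⟨B, ?_⟩
    filter_upwards [hB] with x hx a b y ha hb hy hyx A hA
    exact hx a b y ha hb hy hyx A (fun n hn => (hA hn).1) (fun n hn => (hA hn).2)
  · -- the least elements
    wlog hε1 : ε ≤ 1 generalizing ε with H
    · obtain ⟨B, hB⟩ := H 1 one_pos le_rfl
      refine ⟨B, ?_⟩
      filter_upwards [hB, eventually_ge_atTop 1] with a ha ha1 b hb
      obtain ⟨u, d, h1, h2, h3⟩ := ha b hb
      refine ⟨u, d, h1, h2, fun i hi => ?_⟩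
      obtain ⟨h4, h5, h6⟩ := h3 i hi
      refine ⟨h4, h5, h6.trans ?_⟩
      apply Real.rpow_le_rpow_of_exponent_le (by exact_mod_cast ha1)
      linarith
    obtain ⟨θ, hθ⟩ : ∃ θ : ℝ, θ = 2 / 5 + ε / 20 := ⟨_, rfl⟩
    obtain ⟨h4, h5, h6, hθ0⟩ := hA 3 θ (by norm_num) (by rw [hθ]; push_cast; linarith)
    have hθ1 : θ ≤ 1 := by rw [hθ]; linarith
    obtain ⟨B, hB⟩ := Pool.Agent.Y677.KU.lin_exists 3 (3 * 3 + 1) (by omega) θ hθ0 hθ1 h4 h5 h6 l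
    refine ⟨2 * B, ?_⟩
    have hXr : Tendsto (fun X : ℕ => (X : ℝ)) atTop atTop := tendsto_natCast_atTop_atTop
    obtain ⟨x₀, hx₀⟩ := eventually_atTop.1 hB
    have hlog := Real.tendsto_log_atTop.comp hXr
    have hpow := (tendsto_rpow_atTop (show 0 < ε / 4 by positivity)).comp hXr
    filter_upwards [eventually_ge_atTop (x₀ + 4), hlog.eventually_ge_atTop 3,
      hpow.eventually_ge_atTop 4] with a ha hl3 hp4 b hb
    simp only [Function.comp] at hl3 hp4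
    have ha4 : 4 ≤ a := by omega
    have ha4r : (4 : ℝ) ≤ a := by exact_mod_cast ha4
    have ha0 : (0 : ℝ) < a := by linarith
    obtain ⟨x, hx⟩ : ∃ x : ℕ, x = ⌊(a : ℝ) ^ (5 / 3 + ε) / 2⌋₊ := ⟨_, rfl⟩
    have hpe : (a : ℝ) ^ (5 / 3 + ε) = (a : ℝ) ^ (ε / 4) * (a : ℝ) ^ (5 / 3 + 3 / 4 * ε) := by
      rw [← Real.rpow_add ha0]
      congr 1
      ring
    have hbig : (a : ℝ) ≤ (a : ℝ) ^ (5 / 3 + 3 / 4 * ε) := by
      calc (a : ℝ) = (a : ℝ) ^ (1 : ℝ) := (Real.rpow_one _).symm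
        _ ≤ _ := Real.rpow_le_rpow_of_exponent_le (by linarith) (by linarith)
    have hxlo : (a : ℝ) ^ (5 / 3 + 3 / 4 * ε) ≤ x := by
      have e1 : (a : ℝ) ^ (5 / 3 + ε) / 2 < x + 1 := by
        rw [hx]
        exact Nat.lt_floor_add_one _
      nlinarith
    have hxup : (x : ℝ) ≤ (a : ℝ) ^ (5 / 3 + ε) / 2 := by
      rw [hx]
      exact Nat.floor_le (by positivity)
    have hax : (a : ℝ) ≤ x := hbig.trans hxlo
    have hax' : a ≤ x := by exact_mod_cast hax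
    have hx0 : (0 : ℝ) < x := by linarith
    have hcond : (a : ℝ) * (x : ℝ) ^ θ ≤ x := by
      have e1 : (a : ℝ) ≤ (x : ℝ) ^ (1 - θ) := by
        calc (a : ℝ) = (a : ℝ) ^ (1 : ℝ) := (Real.rpow_one _).symm
          _ ≤ (a : ℝ) ^ ((5 / 3 + 3 / 4 * ε) * (1 - θ)) := by
              apply Real.rpow_le_rpow_of_exponent_le (by linarith)
              rw [hθ]
              nlinarith
          _ = ((a : ℝ) ^ (5 / 3 + 3 / 4 * ε)) ^ (1 - θ) := Real.rpow_mul ha0.le _ _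
          _ ≤ (x : ℝ) ^ (1 - θ) := Real.rpow_le_rpow (by positivity) hxlo (by linarith)
      calc (a : ℝ) * (x : ℝ) ^ θ ≤ (x : ℝ) ^ (1 - θ) * (x : ℝ) ^ θ :=
            mul_le_mul_of_nonneg_right e1 (by positivity)
        _ = x := by rw [← Real.rpow_add hx0, sub_add_cancel, Real.rpow_one]
    obtain ⟨u, d, h7, h8, h9⟩ := hx₀ x (by omega) a b x (by omega) hb hcond le_rfl
    refine ⟨u, d, h7, h8.trans ?_, fun i hi => ?_⟩
    · apply mul_le_mul_of_nonneg_left _ ha0.le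
      have e1 : Real.log x ≤ Real.log a ^ 2 := by
        have e2 : (x : ℝ) ≤ (a : ℝ) ^ (3 : ℝ) := by
          have e3 : (a : ℝ) ^ (5 / 3 + ε) ≤ (a : ℝ) ^ (3 : ℝ) :=
            Real.rpow_le_rpow_of_exponent_le (by linarith) (by linarith)
          have e4 : 0 ≤ (a : ℝ) ^ (5 / 3 + ε) := by positivity
          linarith
        have e3 : Real.log x ≤ 3 * Real.log a := by
          rw [← Real.log_rpow ha0]
          exact Real.log_le_log hx0 e2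
        nlinarith
      rw [pow_mul]
      exact pow_le_pow_left₀ (Real.log_nonneg (by linarith)) e1 B
    · obtain ⟨h10, h11, h12⟩ := h9 i hi
      refine ⟨⟨⟨h10.1, h10.2.1⟩, h10.2.2⟩, by omega, ?_⟩
      have e1 : ((u + i * d : ℕ) : ℝ) ≤ x + x := by exact_mod_cast h12
      linarith

end Pool.Agent.Results.MP_5b0a7e_nt.ThreePrimeFactors
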